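import Mathlib
import Pool.Agent.Lib_MP_af4de1_zy.Z81

/-!
# The zeros of `F(·;q)` as functions of `q`

`z_k(q) = w_k(q) / q^k` with `w_k` continuous on the closed disc without `1`, holomorphic inside,
`w_k(0) = -(k+1)`, and `|w_k(q)| < |w_(k+1)(q)|`, that is, `|z_k| < |q| |z_(k+1)|`.
-/

set_option autoImplicit false

open Complex Set Filter Topology Metric SokamF

namespace SokamDM

section state

open SokamHD

variable {K : Set ℂ} {k : ℕ} {d : ℕ → ℂ → ℂ} {w : ℕ → ℂ → ℂ}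

/-- One step of the induction, with holomorphy of the normalised zeros. -/
theorem step (hK : IsCompact K) (hcv : Convex ℝ K) (hi : (interior K).Nonempty)
    (h1 : ∀ q ∈ K, ‖q‖ ≤ 1) (h2 : (1 : ℂ) ∉ K) (h : State K k d w)
    (hd : ∀ j < k, DifferentiableOn ℂ (w j) (interior K))
    (hB : ∀ q ∈ frontier K, q ≠ 0 →
      ∃ z, SokamHD.First q (k + 1) z ∧ StarN q (k + 1) z) :
    ∃ d' w', State K (k + 1) d' w' ∧ ∀ j < k + 1, DifferentiableOn ℂ (w' j) (interior K) := by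
  obtain ⟨W, hb⟩ := exists_Bd hK.isClosed h hB
  have hWc := hb.continuousOn hK h1 h
  have hq := hb.quot_ne hK h1 h
  obtain ⟨L, hL, hLW⟩ := hb.exists_L hK h1 h2 h hWc
  have hc : Ent K (Cf d) := h.ent.Cf h1
  have hcd : ∀ n, DifferentiableOn ℂ (Cf d n) (interior K) := fun n =>
    (differentiableOn_id.pow _).mul (h.diff n)
  have hc1 : ∀ q ∈ K, Cf d 0 q = 1 := fun q hq => by simp [Cf, h.one q hq]
  obtain ⟨W', hW', hWd', hWf, hW0⟩ := exists_W hK hcv hi hc hcd hc1 hWc hb.zero hq hL hLW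
  have hq' : ∀ q ∈ frontier K, ∀ u : ℂ, ‖u‖ ≤ 1 → S (quot (Cf d) W') q (W' q * u) ≠ 0 := by
    intro q hqf u hu
    have h3 : S (quot (Cf d) W') q (W' q * u) = S (quot (Cf d) W) q (W q * u) := by
      simp only [S, quot, hWf q hqf]
    rw [h3]
    exact hq q hqf u hu
  refine ⟨_, _, h.succ hK h1 hW' hWd' (fun q hq => (hW0 q hq).1) (fun q hq => (hW0 q hq).2)
    (W_unique hK hcv hi hc hcd hc1 hW' hWd' (fun q hq => (hW0 q hq).2) hq'), fun j hj => ?_⟩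
  rcases Nat.lt_succ_iff_lt_or_eq.1 hj with hj | rfl
  · rw [Function.update_of_ne hj.ne]
    exact hd j hj
  · rw [Function.update_self]
    exact hWd'

theorem exists_state' (hK : IsCompact K) (hcv : Convex ℝ K) (hi : (interior K).Nonempty)
    (h1 : ∀ q ∈ K, ‖q‖ ≤ 1) (h2 : (1 : ℂ) ∉ K)
    (hB : ∀ q ∈ frontier K, q ≠ 0 → ∃ z, SokamHD.First q k z ∧ StarN q k z) :
    ∃ d w, State K k d w ∧ ∀ j < k, DifferentiableOn ℂ (w j) (interior K) := by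
  induction k with
  | zero => exact ⟨_, _, State.init h1 (fun _ _ => 0), fun j hj => absurd hj (Nat.not_lt_zero j)⟩
  | succ k ih =>
    obtain ⟨d, w, h, hd⟩ := ih fun q hq hq0 => by
      obtain ⟨z, hz, hs⟩ := hB q hq hq0
      exact ⟨z, hz.mono (by omega), hs.mono (by omega)⟩
    exact step hK hcv hi h1 h2 h hd hB

end state

/-- The two versions of `First`. -/
theorem in_of_hd {q : ℂ} {k : ℕ} {z : ℕ → ℂ} (h : SokamHD.First q (k + 1) z) :
    SokamIn.First q k z := by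
  obtain ⟨g1, g2, g3⟩ := h
  refine ⟨fun i hi => (g1 i (by omega)).1, fun i hi => (g1 i (by omega)).2,
    fun i hi => g2 i (i + 1) (by omega) (by omega), fun w hw hwk => ?_⟩
  rcases g3 w hw with ⟨i, hi, h⟩ | h
  · exact ⟨i, by omega, h⟩
  · exact absurd (h k (by omega)) (not_lt.2 hwk)

/-- Everything on one good disc. -/
theorem level {ρ : ℝ} (hρ0 : 0 < ρ) (hρ1 : ρ < 1) {k : ℕ} {z : ℝ → ℕ → ℂ}
    (h : SokamIn.Circ ρ k z) : ∃ w : ℕ → ℂ → ℂ,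
      (∀ j ≤ k, DifferentiableOn ℂ (w j) (ball 0 ρ) ∧ w j 0 = -((j : ℂ) + 1)) ∧
      (∀ j ≤ k, ∀ q : ℂ, ‖q‖ ≤ ρ → w j q ≠ 0) ∧
      (∀ j < k, ∀ q : ℂ, ‖q‖ ≤ ρ → ‖w j q‖ < ‖w (j + 1) q‖) ∧
      ∀ q : ℂ, q ≠ 0 → ‖q‖ ≤ ρ → SokamIn.First q k (fun j => w j q / q ^ j) := by
  have hK : IsCompact (closedBall (0 : ℂ) ρ) := isCompact_closedBall 0 ρ
  have hcv : Convex ℝ (closedBall (0 : ℂ) ρ) := convex_closedBall 0 ρ
  have h1 : ∀ q ∈ closedBall (0 : ℂ) ρ, ‖q‖ ≤ 1 := fun q hq => by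
    rw [mem_closedBall_zero_iff] at hq; linarith
  have h2 : (1 : ℂ) ∉ closedBall (0 : ℂ) ρ := by
    rw [mem_closedBall_zero_iff, norm_one]; linarith
  have hint : interior (closedBall (0 : ℂ) ρ) = ball 0 ρ := interior_closedBall _ hρ0.ne'
  have hi : (interior (closedBall (0 : ℂ) ρ)).Nonempty := by
    rw [hint]
    exact ⟨0, mem_ball_self hρ0⟩
  have hqq : ∀ p : ℂ, ‖p‖ = ρ → SokamIn.qq ρ p.arg 1 = p := by
    intro p hp
    unfold SokamIn.qq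
    rw [ofReal_one, one_mul, exp_add, ← ofReal_exp, Real.exp_log hρ0, ← hp]
    exact norm_mul_exp_arg_mul_I p
  have hB : ∀ p ∈ frontier (closedBall (0 : ℂ) ρ), p ≠ 0 →
      ∃ z, SokamHD.First p (k + 1) z ∧ SokamHD.StarN p (k + 1) z := by
    intro p hp _
    rw [frontier_closedBall _ hρ0.ne', mem_sphere_zero_iff_norm] at hp
    have h3 := h.first p.arg
    rw [hqq p hp] at h3
    refine ⟨z p.arg, SokamHD.First.of_in h3, fun i j hij hj τ hτ he => ?_⟩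
    have hgap : ∀ j, j < k + 1 → ∀ i, i < j → ‖z p.arg i‖ < ρ * ‖z p.arg j‖ := by
      intro j hj i hij
      obtain ⟨l, rfl⟩ : ∃ l, j = l + 1 := ⟨j - 1, by omega⟩
      have h4 := h.gap p.arg l (by omega)
      rcases Nat.lt_succ_iff_lt_or_eq.mp hij with h5 | h5
      · exact ((SokamHD.First.of_in h3).2.1 i l h5 (by omega)).trans h4
      · rw [h5]; exact h4
    have h4 := hgap j hj i hij
    rw [he, norm_mul, norm_mul, hp, norm_real, Real.norm_of_nonneg (by linarith)] at h4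
    nlinarith [mul_nonneg hρ0.le (norm_nonneg (z p.arg j))]
  obtain ⟨d, w, hs, hd⟩ := exists_state' hK hcv hi h1 h2 hB
  rw [hint] at hd
  have hfirst : ∀ q : ℂ, q ≠ 0 → ‖q‖ ≤ ρ → SokamIn.First q k (fun j => w j q / q ^ j) :=
    fun q hq0 hq => in_of_hd (hs.first h1 (mem_closedBall_zero_iff.2 hq) hq0)
  have hne : ∀ j ≤ k, ∀ q : ℂ, ‖q‖ ≤ ρ → w j q ≠ 0 := fun j hj q hq =>
    hs.wne j (by omega) q (mem_closedBall_zero_iff.2 hq)
  refine ⟨w, fun j hj => ⟨hd j (by omega), hs.w0 (mem_closedBall_self hρ0.le) j (by omega)⟩, hne,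
    fun j hj => ?_, hfirst⟩
  -- the ratio
  have hcf : ContinuousOn (fun q => w j q / w (j + 1) q) (closedBall 0 ρ) :=
    (hs.wc j (by omega)).div (hs.wc (j + 1) (by omega)) fun q hq =>
      hne (j + 1) hj q (mem_closedBall_zero_iff.1 hq)
  have hdf : DifferentiableOn ℂ (fun q => w j q / w (j + 1) q) (interior (closedBall 0 ρ)) := by
    rw [hint]
    exact (hd j (by omega)).div (hd (j + 1) (by omega)) fun q hq =>
      hne (j + 1) hj q (mem_ball_zero_iff.1 hq).le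
  have hfr : ∀ q : ℂ, ‖q‖ = ρ → ‖w j q / w (j + 1) q‖ < 1 := by
    intro q hq
    have hq0 : q ≠ 0 := by
      rw [← norm_pos_iff, hq]; exact hρ0
    have h3 := h.first q.arg
    rw [hqq q hq] at h3
    have e1 := SokamIn.first_unique h3 (hfirst q hq0 hq.le) j (by omega)
    have e2 := SokamIn.first_unique h3 (hfirst q hq0 hq.le) (j + 1) (by omega)
    have h4 := h.gap q.arg j (by omega)
    rw [e1, e2] at h4
    simp only [norm_div, norm_pow, hq] at h4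
    rw [norm_div, div_lt_one (norm_pos_iff.2 (hne (j + 1) hj q hq.le))]
    have h5 : ρ * (‖w (j + 1) q‖ / ρ ^ (j + 1)) = ‖w (j + 1) q‖ / ρ ^ j := by
      rw [pow_succ]
      field_simp
    rw [h5] at h4
    exact (div_lt_div_iff_of_pos_right (pow_pos hρ0 j)).1 h4
  obtain ⟨C, hC1, hC⟩ : ∃ C : ℝ, C < 1 ∧
      ∀ q ∈ frontier (closedBall (0 : ℂ) ρ), ‖w j q / w (j + 1) q‖ ≤ C := by
    have hS : IsCompact (sphere (0 : ℂ) ρ) := isCompact_sphere 0 ρ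
    have hSn : (sphere (0 : ℂ) ρ).Nonempty := ⟨ρ, by simp [abs_of_pos hρ0]⟩
    obtain ⟨q, hq, hm⟩ := hS.exists_isMaxOn hSn
      ((hcf.mono sphere_subset_closedBall).norm)
    refine ⟨_, hfr q (mem_sphere_zero_iff_norm.1 hq), fun p hp => ?_⟩
    rw [frontier_closedBall _ hρ0.ne'] at hp
    exact hm hp
  intro q hq
  have h3 := (SokamHD.max_principle hK hcv hi hcf hdf hC q (mem_closedBall_zero_iff.2 hq)).trans_lt
    hC1
  rwa [norm_div, div_lt_one (norm_pos_iff.2 (hne (j + 1) hj q hq))] at h3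

/-- All first zeros in one sequence. -/
theorem exists_seq {q : ℂ} (h : ∀ k, ∃ z, SokamIn.First q k z) :
    ∃ Z : ℕ → ℂ, ∀ k, SokamIn.First q k Z := by
  choose z hz using h
  have he : ∀ k, ∀ i ≤ k, z i i = z k i := fun k i hi =>
    SokamIn.first_unique (hz i) ((hz k).mono_k hi) i le_rfl
  refine ⟨fun k => z k k, fun k => ⟨fun i hi => ?_, fun i hi => ?_, fun i hi => ?_,
    fun u hu hle => ?_⟩⟩
  · exact (hz i).zero i le_rfl
  · exact (hz i).simple i le_rfl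
  · rw [he (i + 1) i (by omega)]
    exact (hz (i + 1)).mono i (by omega)
  · obtain ⟨i, hi, rfl⟩ := (hz k).complete u hu hle
    exact ⟨i, hi, (he k i hi).symm⟩

/-- The sequence contains all zeros. -/
theorem seq_complete {q : ℂ} (hq : ‖q‖ ≤ 1) {Z : ℕ → ℂ} (h : ∀ k, SokamIn.First q k Z) {u : ℂ}
    (hu : F q u = 0) : ∃ k, u = Z k := by
  by_contra hcon
  have hlt : ∀ k, ‖Z k‖ < ‖u‖ := by
    intro k
    by_contra h1
    obtain ⟨i, -, hi⟩ := (h k).complete u hu (not_lt.1 h1)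
    exact hcon ⟨i, hi⟩
  have hinj : Function.Injective Z := by
    have hm : StrictMono fun k => ‖Z k‖ := strictMono_nat_of_lt_succ fun k =>
      (h (k + 1)).mono k (Nat.lt_succ_self k)
    intro i j hij
    exact hm.injective (congrArg norm hij)
  refine Set.infinite_range_of_injective hinj ((SokamIn.zeros_finite hq ‖u‖).subset ?_)
  rintro _ ⟨k, rfl⟩
  exact ⟨(h k).zero k le_rfl, mem_closedBall_zero_iff.2 (hlt k).le⟩

/-- **The zeros as functions of `q`**, from the circle `|q| = 1`. -/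
theorem main (H : ∀ q : ℂ, ‖q‖ = 1 → q ≠ 1 → SokamIn.Dist q) :
    ∃ w : ℕ → ℂ → ℂ,
      (∀ k, ContinuousOn (w k) {q : ℂ | ‖q‖ ≤ 1 ∧ q ≠ 1} ∧
        DifferentiableOn ℂ (w k) (ball 0 1) ∧ w k 0 = -((k : ℂ) + 1)) ∧
      ∀ q : ℂ, ‖q‖ ≤ 1 → q ≠ 1 → (∀ k, w k q ≠ 0 ∧ ‖w k q‖ < ‖w (k + 1) q‖) ∧
        (q ≠ 0 → (∀ z, F q z = 0 ↔ ∃ k, z = w k q / q ^ k) ∧
          ∀ k, deriv (F q) (w k q / q ^ k) ≠ 0) := by
  have hD : ∀ q : ℂ, q ≠ 0 → ‖q‖ ≤ 1 → q ≠ 1 → ∃ Z : ℕ → ℂ, ∀ k, SokamIn.First q k Z :=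
    fun q hq0 hq hq1 => exists_seq (SokamIn.exists_first' hq0 hq hq1
      (SokamIn.closed_dist H (norm_pos_iff.2 hq0) hq hq1))
  choose Z hZ using hD
  classical
  obtain ⟨w, hw⟩ : ∃ w : ℕ → ℂ → ℂ, ∀ k q, w k q =
      if h : q ≠ 0 ∧ ‖q‖ ≤ 1 ∧ q ≠ 1 then q ^ k * Z q h.1 h.2.1 h.2.2 k else -((k : ℂ) + 1) :=
    ⟨_, fun _ _ => rfl⟩
  have hwZ : ∀ k q (h0 : q ≠ 0) (h1 : ‖q‖ ≤ 1) (h2 : q ≠ 1), w k q = q ^ k * Z q h0 h1 h2 k :=
    fun k q h0 h1 h2 => by rw [hw, dif_pos ⟨h0, h1, h2⟩]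
  have hw0 : ∀ k, w k 0 = -((k : ℂ) + 1) := fun k => by
    rw [hw, dif_neg (by simp)]
  have hwd : ∀ k q (h0 : q ≠ 0) (h1 : ‖q‖ ≤ 1) (h2 : q ≠ 1), w k q / q ^ k = Z q h0 h1 h2 k := by
    intro k q h0 h1 h2
    rw [hwZ k q h0 h1 h2]
    field_simp
  -- the local functions
  have hloc : ∀ (k : ℕ) (r : ℝ), r < 1 → ∃ ρ, r < ρ ∧ 0 < ρ ∧ ρ < 1 ∧
      (∀ j ≤ k, DifferentiableOn ℂ (w j) (ball 0 ρ)) ∧
      (∀ j ≤ k, ∀ q : ℂ, ‖q‖ ≤ ρ → w j q ≠ 0) ∧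
      ∀ j < k, ∀ q : ℂ, ‖q‖ ≤ ρ → ‖w j q‖ < ‖w (j + 1) q‖ := by
    intro k r hr
    obtain ⟨ρ, h1, h2, h3, z, hz⟩ := SokamIn.exists_circ
      (fun p hp hp1 k => SokamIn.exists_first hp hp1 (H p hp hp1) k) (SokamIn.tip k) hr
    obtain ⟨v, g1, g2, g3, g4⟩ := level h2 h3 hz
    have he : ∀ j ≤ k, ∀ q : ℂ, ‖q‖ ≤ ρ → w j q = v j q := by
      intro j hj q hq
      by_cases hq0 : q = 0
      · rw [hq0, hw0, (g1 j hj).2]
      · have hq1 : ‖q‖ ≤ 1 := hq.trans h3.le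
        have hq2 : q ≠ 1 := by
          rintro rfl
          rw [norm_one] at hq
          linarith
        rw [hwZ j q hq0 hq1 hq2,
          SokamIn.first_unique (hZ q hq0 hq1 hq2 k) (g4 q hq0 hq) j hj]
        field_simp
    refine ⟨ρ, h1, h2, h3, fun j hj => (g1 j hj).1.congr fun q hq =>
      he j hj q (mem_ball_zero_iff.1 hq).le, fun j hj q hq => ?_, fun j hj q hq => ?_⟩
    · rw [he j hj q hq]
      exact g2 j hj q hq
    · rw [he j hj.le q hq, he (j + 1) hj q hq]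
      exact g3 j hj q hq
  have hdiff : ∀ k, DifferentiableOn ℂ (w k) (ball 0 1) := by
    intro k q hq
    rw [mem_ball_zero_iff] at hq
    obtain ⟨ρ, h1, -, -, h2, -, -⟩ := hloc k ‖q‖ hq
    exact ((h2 k le_rfl).differentiableAt (isOpen_ball.mem_nhds
      (mem_ball_zero_iff.2 h1))).differentiableWithinAt
  have hcont : ∀ k, ContinuousOn (w k) {q : ℂ | ‖q‖ ≤ 1 ∧ q ≠ 1} := by
    intro k q hq
    by_cases hq0 : q = 0
    · rw [hq0]
      exact ((hdiff k).differentiableAt (isOpen_ball.mem_nhds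
        (mem_ball_self one_pos))).continuousAt.continuousWithinAt
    · have hc : ContinuousWithinAt (fun p => w k p / p ^ k) {q : ℂ | ‖q‖ ≤ 1 ∧ q ≠ 1} q := by
        rw [Metric.continuousWithinAt_iff]
        intro ε hε
        obtain ⟨δ, hδ, hst⟩ := SokamIn.stable hq.1 (hZ q hq0 hq.1 hq.2 k) hε
        refine ⟨min δ ‖q‖, lt_min hδ (norm_pos_iff.2 hq0), fun {p} hp hd => ?_⟩
        rw [dist_eq_norm] at hd
        have hp0 : p ≠ 0 := by
          rintro rfl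
          rw [zero_sub, norm_neg] at hd
          exact absurd hd (not_lt.2 (min_le_right _ _))
        obtain ⟨z', hz', hz''⟩ := hst p hp.1 (hd.trans_le (min_le_left _ _))
        rw [hwd k p hp0 hp.1 hp.2, hwd k q hq0 hq.1 hq.2,
          SokamIn.first_unique (hZ p hp0 hp.1 hp.2 k) hz' k le_rfl, dist_eq_norm]
        exact hz'' k le_rfl
      have h2 : ContinuousWithinAt (fun p => p ^ k * (w k p / p ^ k))
          {q : ℂ | ‖q‖ ≤ 1 ∧ q ≠ 1} q := (continuousWithinAt_id.pow k).mul hc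
      have hne : ∀ᶠ p in 𝓝[{q : ℂ | ‖q‖ ≤ 1 ∧ q ≠ 1}] q, p ≠ 0 :=
        nhdsWithin_le_nhds (isOpen_ne.mem_nhds hq0)
      refine h2.congr_of_eventuallyEq ?_ ?_
      · filter_upwards [hne] with p hp
        field_simp
      · field_simp
  refine ⟨w, fun k => ⟨hcont k, hdiff k, hw0 k⟩, fun q hq hq1 => ⟨fun k => ?_, fun hq0 => ⟨fun z =>
    ⟨fun hz => ?_, ?_⟩, fun k => ?_⟩⟩⟩
  · rcases hq.lt_or_eq with hlt | heq
    · obtain ⟨ρ, h1, -, -, -, h2, h3⟩ := hloc (k + 1) ‖q‖ hlt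
      exact ⟨h2 k (by omega) q h1.le, h3 k (by omega) q h1.le⟩
    · have hq0 : q ≠ 0 := by
        rw [← norm_pos_iff, heq]; exact one_pos
      have hF := hZ q hq0 hq hq1 (k + 1)
      rw [hwZ k q hq0 hq hq1, hwZ (k + 1) q hq0 hq hq1]
      refine ⟨mul_ne_zero (pow_ne_zero _ hq0) (hF.ne_zero (by omega)), ?_⟩
      rw [norm_mul, norm_mul, norm_pow, norm_pow, heq, one_pow, one_pow, one_mul, one_mul]
      exact hF.mono k (by omega)
  · obtain ⟨k, hk⟩ := seq_complete hq (hZ q hq0 hq hq1) hz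
    exact ⟨k, by rw [hwd k q hq0 hq hq1]; exact hk⟩
  · rintro ⟨k, rfl⟩
    rw [hwd k q hq0 hq hq1]
    exact (hZ q hq0 hq hq1 k).zero k le_rfl
  · rw [hwd k q hq0 hq hq1, deriv_F hq]
    exact (hZ q hq0 hq hq1 k).simple k le_rfl

/-- All zeros are simple, and of two different zeros one is smaller than `|q|` times the other. -/
theorem pairs (H : ∀ q : ℂ, ‖q‖ = 1 → q ≠ 1 → SokamIn.Dist q) (q : ℂ) (hq0 : 0 < ‖q‖)
    (hq : ‖q‖ ≤ 1) : (∀ z, F q z = 0 → deriv (F q) z ≠ 0) ∧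
      ∀ z z', F q z = 0 → F q z' = 0 → z ≠ z' → ‖z‖ < ‖q‖ * ‖z'‖ ∨ ‖z'‖ < ‖q‖ * ‖z‖ := by
  have hqn : q ≠ 0 := norm_pos_iff.1 hq0
  by_cases hq1 : q = 1
  · have hno : ∀ z, F q z ≠ 0 := fun z => by
      rw [hq1, SokamIn.F_one]
      exact Complex.exp_ne_zero _
    exact ⟨fun z hz => absurd hz (hno z), fun z _ hz => absurd hz (hno z)⟩
  obtain ⟨w, -, hw⟩ := main H
  obtain ⟨h1, h2⟩ := hw q hq hq1
  obtain ⟨h3, h4⟩ := h2 hqn
  have hm : StrictMono fun k => ‖w k q‖ := strictMono_nat_of_lt_succ fun k => (h1 k).2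
  have key : ∀ i j, i < j → ‖w i q / q ^ i‖ < ‖q‖ * ‖w j q / q ^ j‖ := by
    intro i j hij
    have e1 : ‖q‖ ^ j ≤ ‖q‖ * ‖q‖ ^ i := by
      rw [← pow_succ']
      exact pow_le_pow_of_le_one hq0.le hq hij
    have e2 : ‖w i q‖ < ‖w j q‖ := hm hij
    have e3 : (0 : ℝ) < ‖q‖ ^ i := pow_pos hq0 _
    have e4 : (0 : ℝ) < ‖q‖ ^ j := pow_pos hq0 _
    rw [norm_div, norm_div, norm_pow, norm_pow, ← mul_div_assoc, div_lt_div_iff₀ e3 e4]
    calc ‖w i q‖ * ‖q‖ ^ j ≤ ‖w i q‖ * (‖q‖ * ‖q‖ ^ i) :=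
          mul_le_mul_of_nonneg_left e1 (norm_nonneg _)
      _ < ‖w j q‖ * (‖q‖ * ‖q‖ ^ i) := mul_lt_mul_of_pos_right e2 (by positivity)
      _ = ‖q‖ * ‖w j q‖ * ‖q‖ ^ i := by ring
  refine ⟨fun z hz => ?_, fun z z' hz hz' hne => ?_⟩
  · obtain ⟨k, rfl⟩ := (h3 z).1 hz
    exact h4 k
  · obtain ⟨i, rfl⟩ := (h3 z).1 hz
    obtain ⟨j, rfl⟩ := (h3 z').1 hz'
    rcases lt_trichotomy i j with h | h | h
    · exact Or.inl (key i j h)
    · exact absurd (by rw [h]) hne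
    · exact Or.inr (key j i h)

end SokamDM
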